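import Pool.Agent.R903.TautDefs

/-!
# Quotients of powers of a variety: definitions
-/

open CategoryTheory CategoryTheory.Limits AlgebraicGeometry
open Pool.Agent.H914 Pool.Agent.H914.VarClass Pool.Agent.H914.VarClass.Obj
open Pool.Agent.R903

universe u v w

namespace Pool.Agent.R905.BQ

variable {k : Type u} [Field k] {𝒱 : VarClass k}

/-- The morphism to the power `X^(n + 1)` with the components `x i`. -/
noncomputable def tup {X Y : 𝒱.Obj} : ∀ n : ℕ, (Fin (n + 1) → (Y ⟶ X)) → (Y ⟶ pw X n)
  | 0, x => x 0
  | n + 1, x => lift (x 0) (tup n fun i => x i.succ)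

/-- The automorphism `(x_i) ↦ (g x_(σ i))` of the power `X^(n + 1)`, for an automorphism `g` of `X`
and a permutation `σ` of the factors. -/
noncomputable def move {X : 𝒱.Obj} (n : ℕ) (σ : Equiv.Perm (Fin (n + 1))) (g : X ⟶ X) :
    pw X n ⟶ pw X n :=
  tup n fun i => pr X n (σ i) ≫ g

/-- The class `a` on `X^(n + 1)` is invariant under the group `G` of automorphisms of `X`, which
acts diagonally on the power, and under all permutations of the factors. -/
def Invariant (C : ChowTheory.{u, v} 𝒱) {X : 𝒱.Obj} (G : Subgroup (Aut X)) (n : ℕ)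
    (a : C.CH (pw X n)) : Prop :=
  ∀ σ, ∀ g ∈ G, C.pull (move n σ g.hom) a = a

/-- The cycle class map is injective on the Chow groups of `X`. -/
def ClInjectiveAll {C : ChowTheory.{u, v} 𝒱} (W : WeilTheory.{u, v, w} C) (X : 𝒱.Obj) : Prop :=
  ∀ i, W.ClInjective X i

/-- The class `a` is of codimension `i`. -/
def InGr (C : ChowTheory.{u, v} 𝒱) {X : 𝒱.Obj} (i : ℕ) (a : C.CH X) : Prop :=
  a ∈ C.gr X i

/-- The class `a` is homologically trivial. -/
def HomTriv {C : ChowTheory.{u, v} 𝒱} (W : WeilTheory.{u, v, w} C) {X : 𝒱.Obj} (a : C.CH X) :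
    Prop :=
  W.cl X a = 0

/-- All invariant homologically trivial classes of codimension `dim X` on `X^(n + 1)` are
smash-nilpotent. -/
def InvariantsNilpotent {C : ChowTheory.{u, v} 𝒱} (W : WeilTheory.{u, v, w} C) {X : 𝒱.Obj}
    (G : Subgroup (Aut X)) (n : ℕ) : Prop :=
  ∀ a : C.CH (pw X n), InGr C X.dim a → HomTriv W a → Invariant C G n a → C.SmashNilpotent a

/-- The transposed graph of the morphism `f`. -/
noncomputable def tgraph (C : ChowTheory.{u, v} 𝒱) {X Y : 𝒱.Obj} (f : X ⟶ Y) :
    C.CH (Y.prod X) :=
  C.push (lift f (𝟙 X)) 1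

/-- The sum of the (transposed) graphs of the automorphisms of `X^(n + 1)` which are given by the
permutations and the elements of `G`. -/
noncomputable def groupSum (C : ChowTheory.{u, v} 𝒱) {X : 𝒱.Obj} (G : Subgroup (Aut X))
    [Fintype G] (n : ℕ) : C.CH ((pw X n).prod (pw X n)) :=
  ∑ h : Equiv.Perm (Fin (n + 1)) × G, tgraph C (move n h.1 h.2.1.hom)

/-- The correspondence `e` on `Y` is a composition of correspondences `Y → Z → Y` of codimensions
`p` and `q`. -/
def FactorsThrough (C : ChowTheory.{u, v} 𝒱) {Y : 𝒱.Obj} (Z : 𝒱.Obj) (p q : ℕ)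
    (e : C.CH (Y.prod Y)) : Prop :=
  ∃ (α : C.CH (Y.prod Z)) (β : C.CH (Z.prod Y)), InGr C p α ∧ InGr C q β ∧ e = C.comp α β

/-- The correspondence `e` on `Y` factors through a variety `S` of dimension at most `2` and
preserves the codimension of cycles: it is a composition of correspondences `Y → S → Y` of degree
zero. -/
def ThroughSurface (C : ChowTheory.{u, v} 𝒱) {Y : 𝒱.Obj} (e : C.CH (Y.prod Y)) : Prop :=
  ∃ S : 𝒱.Obj, S.dim ≤ 2 ∧ FactorsThrough C S Y.dim S.dim e

/-- The correspondence `e` on `Y` is a composition `Y → Z → Y` of correspondences such that the first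
lowers and the second raises the codimension of cycles by one. (For example, correspondences which
are supported on `Y × D` for a divisor `D` factor in this way through a resolution `Z` of `D`.) -/
def WithShift (C : ChowTheory.{u, v} 𝒱) {Y : 𝒱.Obj} (e : C.CH (Y.prod Y)) : Prop :=
  ∃ Z : 𝒱.Obj, FactorsThrough C Z (Y.dim - 1) (Z.dim + 1) e

/-- `a` is a linear combination of elements with the property `P`. -/
def InSpan {A : Type v} [CommRing A] [Algebra ℚ A] (P : A → Prop) (a : A) : Prop :=
  a ∈ Submodule.span ℚ {x | P x}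

/-- The correspondence `e` on `Y` is a linear combination of correspondences which factor through
surfaces and of correspondences which factor with a shift. For the sum `e` of the elements of a
finite group `H` of automorphisms of `Y` this means that `CH_0(Y/H)` is supported on a surface
(Bloch and Srinivas). -/
def SupportedOnSurface (C : ChowTheory.{u, v} 𝒱) {Y : 𝒱.Obj} (e : C.CH (Y.prod Y)) : Prop :=
  InSpan (fun f => ThroughSurface C f ∨ WithShift C f) e

/-- Homologically trivial divisors, and homologically trivial `0`-cycles on surfaces, are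
smash-nilpotent. (This holds for Chow groups over the complex numbers, since these cycles are
algebraically trivial up to torsion, by the theorem of Voevodsky and Voisin.) -/
def SmallNilpotent {C : ChowTheory.{u, v} 𝒱} (W : WeilTheory.{u, v, w} C) : Prop :=
  (∀ (Z : 𝒱.Obj) (a : C.CH Z), InGr C 1 a → HomTriv W a → C.SmashNilpotent a) ∧
  (∀ (S : 𝒱.Obj) (a : C.CH S), S.dim ≤ 2 → InGr C 2 a → HomTriv W a → C.SmashNilpotent a)

end Pool.Agent.R905.BQ
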