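import Pool.Agent.R905.BQ.Defs

/-!
# Idempotent correspondences: definitions
-/

open CategoryTheory CategoryTheory.Limits AlgebraicGeometry
open Pool.Agent.H914 Pool.Agent.H914.VarClass Pool.Agent.H914.VarClass.Obj
open Pool.Agent.R903

universe u v w

namespace Pool.Agent.R905.BQ

variable {k : Type u} [Field k] {𝒱 : VarClass k}

/-- The correspondence `e` is a sum of exterior products of cycles. -/
def Decomposable (C : ChowTheory.{u, v} 𝒱) {X Y : 𝒱.Obj} (e : C.CH (X.prod Y)) : Prop :=
  InSpan (fun z => ∃ x y, z = C.pull (fst X Y) x * C.pull (snd X Y) y) e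

/-- `e` is an idempotent correspondence of degree zero on `X`. -/
def IsIdem (C : ChowTheory.{u, v} 𝒱) {X : 𝒱.Obj} (e : C.CH (X.prod X)) : Prop :=
  InGr C X.dim e ∧ C.comp e e = e

/-- The correspondence `e` on `X` is homologically equivalent to a sum of exterior products of
cycles. (For surfaces over the complex numbers with `q = 0` this holds if and only if `e` acts as
zero on `H^(2,0)(X)`, by Lefschetz' theorem on `(1,1)`-classes.) -/
def HomDecomposable {C : ChowTheory.{u, v} 𝒱} (W : WeilTheory.{u, v, w} C) {X : 𝒱.Obj}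
    (e : C.CH (X.prod X)) : Prop :=
  ∃ d, Decomposable C d ∧ InGr C X.dim d ∧ HomTriv W (e - d)

/-- `h : X × X → X × X` is a product of two endomorphisms of `X`, or such a product preceded by the
exchange of the factors. -/
def ProductType {X : 𝒱.Obj} (h : X.prod X ⟶ X.prod X) : Prop :=
  ∃ g g' : X ⟶ X, h = lift (fst X X ≫ g) (snd X X ≫ g') ∨ h = lift (snd X X ≫ g) (fst X X ≫ g')

/-- The homologically trivial correspondences `γ` in `e ∘ CH^(dim X)(X × X) ∘ e` are zero. -/
def PartZero {C : ChowTheory.{u, v} 𝒱} (W : WeilTheory.{u, v, w} C) {X : 𝒱.Obj}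
    (e : C.CH (X.prod X)) : Prop :=
  ∀ γ : C.CH (X.prod X), InGr C X.dim γ → HomTriv W γ → C.comp (C.comp e γ) e = 0

/-- For the homologically trivial correspondences `γ`, the sum of the pull-backs of `e ∘ γ ∘ e` under
the morphisms `h i` is smash-nilpotent. (If the `h i` are the elements of a finite group `H`, these
sums are the `H`-invariant classes.) -/
def SumsNilpotent {C : ChowTheory.{u, v} 𝒱} (W : WeilTheory.{u, v, w} C) {X : 𝒱.Obj}
    (e : C.CH (X.prod X)) {n : ℕ} (h : Fin n → (X.prod X ⟶ X.prod X)) : Prop :=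
  ∀ γ : C.CH (X.prod X), InGr C X.dim γ → HomTriv W γ →
    C.SmashNilpotent (∑ i, C.pull (h i) (C.comp (C.comp e γ) e))

/-- The correspondence `(ᵗe) ⊗ e` on `X × X`, which acts as `γ ↦ e ∘ γ ∘ e`. -/
noncomputable def sand (C : ChowTheory.{u, v} 𝒱) {X : 𝒱.Obj} (e : C.CH (X.prod X)) :
    C.CH ((X.prod X).prod (X.prod X)) :=
  C.pull (lift (snd (X.prod X) (X.prod X) ≫ fst X X) (fst (X.prod X) (X.prod X) ≫ fst X X)) e *
    C.pull (lift (fst (X.prod X) (X.prod X) ≫ snd X X) (snd (X.prod X) (X.prod X) ≫ snd X X)) e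

/-- The sum of the compositions of `(ᵗe) ⊗ e` with the (transposed) graphs of the `h i`. -/
noncomputable def famSum (C : ChowTheory.{u, v} 𝒱) {X : 𝒱.Obj} (e : C.CH (X.prod X)) {n : ℕ}
    (h : Fin n → (X.prod X ⟶ X.prod X)) : C.CH ((X.prod X).prod (X.prod X)) :=
  ∑ i, C.comp (sand C e) (tgraph C (h i))

end Pool.Agent.R905.BQ
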