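import Pool.Agent.R905.BQ.Defs

/-!
# Supports of Chow groups of quotients of powers in all dimensions: definitions
-/

open CategoryTheory CategoryTheory.Limits AlgebraicGeometry
open Pool.Agent.H914 Pool.Agent.H914.VarClass Pool.Agent.H914.VarClass.Obj
open Pool.Agent.R903

universe u v w

namespace Pool.Agent.R905.BQ

variable {k : Type u} [Field k] {𝒱 : VarClass k}

/-- The correspondence `e` on `Y` is a composition of correspondences `Y → S → Y` of degree zero
for a variety `S` of dimension at most `r`. -/
def ThroughDim (C : ChowTheory.{u, v} 𝒱) {Y : 𝒱.Obj} (r : ℕ) (e : C.CH (Y.prod Y)) : Prop :=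
  ∃ S : 𝒱.Obj, S.dim ≤ r ∧ FactorsThrough C S Y.dim S.dim e

/-- The correspondence `e` on `Y` is a composition `Y → Z → Y` of correspondences such that the first
lowers and the second raises the codimension of cycles by `s`. -/
def WithShiftBy (C : ChowTheory.{u, v} 𝒱) {Y : 𝒱.Obj} (s : ℕ) (e : C.CH (Y.prod Y)) : Prop :=
  ∃ Z : 𝒱.Obj, FactorsThrough C Z (Y.dim - s) (Z.dim + s) e

/-- The correspondence `e` on `Y` is a linear combination of correspondences of degree zero which
factor through varieties of dimension at most `d + 1` and of correspondences which factor with a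
shift of codimensions by `d`. For the sum `e` of the elements of a finite group `H` of automorphisms
of `Y` this holds if the groups `CH_i(Y/H)`, `i < d`, are supported on closed subsets of dimension at
most `d + 1` (decomposition of the diagonal of Bloch, Srinivas, Paranjape and Laterveer). -/
def SupportedInDim (C : ChowTheory.{u, v} 𝒱) {Y : 𝒱.Obj} (d : ℕ) (e : C.CH (Y.prod Y)) : Prop :=
  InSpan (fun f => ThroughDim C (d + 1) f ∨ WithShiftBy C d f) e

/-- Homologically trivial divisors and homologically trivial `0`-cycles are smash-nilpotent. (This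
holds for Chow groups over the complex numbers, since these cycles are algebraically trivial up to
torsion, by the theorem of Voevodsky and Voisin.) -/
def DivisorsPointsNilpotent {C : ChowTheory.{u, v} 𝒱} (W : WeilTheory.{u, v, w} C) : Prop :=
  (∀ (Z : 𝒱.Obj) (a : C.CH Z), InGr C 1 a → HomTriv W a → C.SmashNilpotent a) ∧
  (∀ (S : 𝒱.Obj) (a : C.CH S), InGr C S.dim a → HomTriv W a → C.SmashNilpotent a)

end Pool.Agent.R905.BQ
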