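import Pool.Agent.R905.BQ.Nilp

/-!
# Bloch's conjecture and quotients of powers
-/

open CategoryTheory CategoryTheory.Limits AlgebraicGeometry
open Pool.Agent.H914 Pool.Agent.H914.VarClass Pool.Agent.H914.VarClass.Obj
open Pool.Agent.R903

universe u v w

namespace Pool.Agent.R905.BQ

variable {k : Type u} [Field k] {𝒱 : VarClass k} {C : ChowTheory.{u, v} 𝒱} {X Y Z T : 𝒱.Obj}

lemma pull_fst_injective (A B : 𝒱.Obj) (f : A ⟶ B) : Function.Injective (C.pull (fst A B)) := by
  intro x y h
  have h1 := congrArg (C.pull (lift (𝟙 A) f)) h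
  rwa [← C.pull_comp, ← C.pull_comp, Obj.lift_fst, C.pull_id, C.pull_id] at h1

lemma push_pull_of_iso {A B : 𝒱.Obj} (g : A ⟶ B) [IsIso g] (y : C.CH B) :
    C.push g (C.pull g y) = y := by
  apply pull_fst_injective (C := C) B B (𝟙 B)
  have : IsIso (prodMap g (𝟙 B)) := by
    refine isIso_of (prodMap (inv g) (𝟙 B)) ?_ ?_ <;>
    · apply hom_ext_prod <;> simp
  rw [C.pull_fst_push, ← C.pull_comp]
  have h : fst A B ≫ g = prodMap g (𝟙 B) ≫ fst B B := by simp
  rw [h, C.pull_comp, C.push_pull_iso]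

lemma pull_diagC (g : X ⟶ X) [IsIso g] :
    C.pull (lift (fst X X ≫ g) (snd X X ≫ g)) (C.diagC X) = C.diagC X := by
  have : IsIso (prodMap g g) := by
    refine isIso_of (prodMap (inv g) (inv g)) ?_ ?_ <;>
    · apply hom_ext_prod <;> simp
  apply C.push_injective (prodMap g g)
  have h : lift (fst X X ≫ g) (snd X X ≫ g) = prodMap g g := rfl
  rw [h, C.push_pull_iso, ChowTheory.diagC, ← C.push_comp]
  have h2 : Obj.diag X ≫ prodMap g g = g ≫ Obj.diag X := by
    apply hom_ext_prod <;> simp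
  have h3 : C.push g 1 = 1 := by
    have := push_pull_of_iso (C := C) g 1
    rwa [map_one] at this
  rw [h2, C.push_comp, h3]

lemma tup_pr : ∀ (n : ℕ) (x : Fin (n + 1) → (Y ⟶ X)) (i : Fin (n + 1)),
    tup n x ≫ pr X n i = x i
  | 0, x, i => by
    have hi : i = 0 := Fin.ext (by omega)
    rw [hi]
    exact Category.comp_id _
  | n + 1, x, i => by
    refine Fin.cases ?_ (fun j => ?_) i
    · exact Obj.lift_fst _ _
    · calc tup (n + 1) x ≫ pr X (n + 1) j.succ
          = lift (x 0) (tup n fun i => x i.succ) ≫ (snd X (pw X n) ≫ pr X n j) := rfl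
        _ = (lift (x 0) (tup n fun i => x i.succ) ≫ snd X (pw X n)) ≫ pr X n j :=
          (Category.assoc _ _ _).symm
        _ = (tup n fun i => x i.succ) ≫ pr X n j := by rw [Obj.lift_snd]
        _ = x j.succ := tup_pr n _ j

/-- the class of the phantom part, symmetrized -/
noncomputable def theta (G : Subgroup (Aut X)) [Fintype G] (n : ℕ) (φ : C.CH (X.prod X)) :
    C.CH (pw X (n + 1)) :=
  ∑ τ : Equiv.Perm (Fin (n + 2)), ∑ g : G,
    C.pull (lift (pr X (n + 1) (τ 0) ≫ (g : Aut X).hom) (pr X (n + 1) (τ 1) ≫ (g : Aut X).hom)) φ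

lemma invariant_theta (G : Subgroup (Aut X)) [Fintype G] (n : ℕ) (φ : C.CH (X.prod X)) :
    Invariant C G (n + 1) (theta G n φ) := by
  intro σ h hh
  set h' : G := ⟨h, hh⟩ with hh'
  rw [theta, map_sum]
  rw [← Equiv.sum_comp (Equiv.mulLeft σ) (fun τ : Equiv.Perm (Fin (n + 2)) => ∑ g : G,
    C.pull (lift (pr X (n + 1) (τ 0) ≫ (g : Aut X).hom) (pr X (n + 1) (τ 1) ≫ (g : Aut X).hom)) φ)]
  refine Finset.sum_congr rfl fun τ _ => ?_
  rw [map_sum]
  rw [← Equiv.sum_comp (Equiv.mulRight h') (fun g : G =>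
    C.pull (lift (pr X (n + 1) ((Equiv.mulLeft σ τ) 0) ≫ (g : Aut X).hom)
      (pr X (n + 1) ((Equiv.mulLeft σ τ) 1) ≫ (g : Aut X).hom)) φ)]
  refine Finset.sum_congr rfl fun g _ => ?_
  rw [← C.pull_comp, comp_lift, ← Category.assoc, ← Category.assoc, move, tup_pr, tup_pr]
  rfl

lemma theta_mem (G : Subgroup (Aut X)) [Fintype G] (n : ℕ) {φ : C.CH (X.prod X)} {d : ℕ}
    (hφ : φ ∈ C.gr _ d) : theta G n φ ∈ C.gr (pw X (n + 1)) d :=
  Submodule.sum_mem _ fun _ _ => Submodule.sum_mem _ fun _ _ => C.pull_mem _ hφ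

lemma cl_theta {W : WeilTheory.{u, v, w} C} (G : Subgroup (Aut X)) [Fintype G] (n : ℕ)
    {φ : C.CH (X.prod X)} (hφ : W.cl _ φ = 0) : W.cl _ (theta G n φ) = 0 := by
  rw [theta, map_sum]
  refine Finset.sum_eq_zero fun τ _ => ?_
  rw [map_sum]
  refine Finset.sum_eq_zero fun g _ => ?_
  rw [W.cl_pull, hφ, map_zero]

lemma pull_fst_eq (a : C.CH X) : C.pull (fst X Y) a = C.ext a 1 := by
  rw [ChowTheory.ext, map_one, mul_one]

lemma pull_snd_eq (a : C.CH Y) : C.pull (snd X Y) a = C.ext 1 a := by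
  rw [ChowTheory.ext, map_one, one_mul]

/-- `z` is one of the two projections, followed by an endomorphism -/
def IsProj (z : X.prod X ⟶ X) : Prop := ∃ g : X ⟶ X, z = fst X X ≫ g ∨ z = snd X X ≫ g

lemma mul_mem_dec {a b : C.CH (X.prod Y)} (ha : a ∈ dec C X Y) (hb : b ∈ dec C X Y) :
    a * b ∈ dec C X Y := by
  rw [dec] at ha
  induction ha using Submodule.span_induction with
  | mem z hz =>
    obtain ⟨x, y, rfl⟩ := hz
    rw [dec] at hb
    induction hb using Submodule.span_induction with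
    | mem z hz =>
      obtain ⟨x', y', rfl⟩ := hz
      rw [C.ext_mul_ext]
      exact ext_mem_dec _ _
    | zero => rw [mul_zero]; exact Submodule.zero_mem _
    | add a b _ _ ha hb => rw [mul_add]; exact Submodule.add_mem _ ha hb
    | smul c a _ ha => rw [mul_smul_comm]; exact Submodule.smul_mem _ c ha
  | zero => rw [zero_mul]; exact Submodule.zero_mem _
  | add a b _ _ ha hb => rw [add_mul]; exact Submodule.add_mem _ ha hb
  | smul c a _ ha => rw [smul_mul_assoc]; exact Submodule.smul_mem _ c ha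

lemma IsProj.pull_mem {z : X.prod X ⟶ X} (hz : IsProj z) (a : C.CH X) :
    C.pull z a ∈ dec C X X := by
  obtain ⟨g, rfl | rfl⟩ := hz
  · rw [C.pull_comp, pull_fst_eq]
    exact ext_mem_dec _ _
  · rw [C.pull_comp, pull_snd_eq]
    exact ext_mem_dec _ _

lemma pull_dec_mem {z z' : X.prod X ⟶ X} (hz : IsProj z) (hz' : IsProj z')
    {d : C.CH (X.prod X)} (hd : d ∈ dec C X X) : C.pull (lift z z') d ∈ dec C X X := by
  rw [dec] at hd
  induction hd using Submodule.span_induction with
  | mem d hd =>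
    obtain ⟨x, y, rfl⟩ := hd
    rw [C.pull_lift_ext]
    exact mul_mem_dec (hz.pull_mem x) (hz'.pull_mem y)
  | zero => rw [map_zero]; exact Submodule.zero_mem _
  | add a b _ _ ha hb => rw [map_add]; exact Submodule.add_mem _ ha hb
  | smul c a _ ha => rw [map_smul]; exact Submodule.smul_mem _ c ha

/-- the morphism `(x, y) ↦ (x, y, …, y)` -/
noncomputable def sec (X : 𝒱.Obj) (n : ℕ) : X.prod X ⟶ pw X (n + 1) :=
  tup (n + 1) fun i => if i = 0 then fst X X else snd X X

lemma exists_count (G : Subgroup (Aut X)) [Fintype G] (n : ℕ) {φ : C.CH (X.prod X)}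
    (hφ : φ - C.diagC X ∈ dec C X X) :
    ∃ c : ℚ, c ≠ 0 ∧ C.pull (sec X n) (theta G n φ) - c • C.diagC X ∈ dec C X X := by
  classical
  set z : Fin (n + 2) → (X.prod X ⟶ X) := fun i => if i = 0 then fst X X else snd X X with hz
  have hz0 : z 0 = fst X X := by simp [hz]
  have hz1 : ∀ i, i ≠ 0 → z i = snd X X := fun i hi => by simp [hz, hi]
  have hproj : ∀ (i : Fin (n + 2)) (g : Aut X), IsProj (z i ≫ g.hom) := by
    intro i g
    by_cases hi : i = 0
    · rw [hi, hz0]
      exact ⟨g.hom, Or.inl rfl⟩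
    · rw [hz1 i hi]
      exact ⟨g.hom, Or.inr rfl⟩
  set ε : Equiv.Perm (Fin (n + 2)) → ℚ := fun τ => if τ 0 = 0 ∨ τ 1 = 0 then 1 else 0 with hε
  have hdiag : ∀ (τ : Equiv.Perm (Fin (n + 2))) (g : Aut X),
      C.pull (lift (z (τ 0) ≫ g.hom) (z (τ 1) ≫ g.hom)) (C.diagC X) - ε τ • C.diagC X
        ∈ dec C X X := by
    intro τ g
    by_cases h0 : τ 0 = 0
    · have h1 : τ 1 ≠ 0 := by
        intro h1
        have := τ.injective (h0.trans h1.symm)
        exact absurd this (by simp)
      rw [h0, hz0, hz1 _ h1, pull_diagC, hε]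
      simp [h0]
    · by_cases h1 : τ 1 = 0
      · have e : lift (snd X X ≫ g.hom) (fst X X ≫ g.hom) =
            swap X X ≫ lift (fst X X ≫ g.hom) (snd X X ≫ g.hom) := by
          apply hom_ext_prod <;> simp
        rw [h1, hz0, hz1 _ h0, e, C.pull_comp, pull_diagC, hε]
        have := C.transp_diagC X
        rw [ChowTheory.transp] at this
        rw [this]
        simp [h1]
      · have e : lift (snd X X ≫ g.hom) (snd X X ≫ g.hom) =
            snd X X ≫ (g.hom ≫ Obj.diag X) := by
          apply hom_ext_prod <;> simp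
        rw [hz1 _ h0, hz1 _ h1, e, C.pull_comp, pull_snd_eq, hε]
        simp only [h0, h1, or_self, if_false, zero_smul, sub_zero]
        exact ext_mem_dec _ _
  refine ⟨∑ τ : Equiv.Perm (Fin (n + 2)), ∑ g : G, ε τ, ?_, ?_⟩
  · have hnn : ∀ τ : Equiv.Perm (Fin (n + 2)), 0 ≤ ∑ g : G, ε τ := by
      intro τ
      refine Finset.sum_nonneg fun g _ => ?_
      simp only [hε]
      split_ifs <;> norm_num
    refine ne_of_gt (Finset.sum_pos' (fun τ _ => hnn τ) ⟨1, Finset.mem_univ _, ?_⟩)
    have : ε 1 = 1 := by simp [hε]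
    rw [this, Finset.sum_const, Finset.card_univ, nsmul_eq_mul, mul_one]
    exact_mod_cast Fintype.card_pos
  · have h1 : C.pull (sec X n) (theta G n φ) = ∑ τ : Equiv.Perm (Fin (n + 2)), ∑ g : G,
        C.pull (lift (z (τ 0) ≫ (g : Aut X).hom) (z (τ 1) ≫ (g : Aut X).hom)) φ := by
      rw [theta, map_sum]
      refine Finset.sum_congr rfl fun τ _ => ?_
      rw [map_sum]
      refine Finset.sum_congr rfl fun g _ => ?_
      rw [← C.pull_comp, comp_lift, ← Category.assoc, ← Category.assoc, sec, tup_pr, tup_pr]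
    rw [h1, Finset.sum_smul, ← Finset.sum_sub_distrib]
    refine Submodule.sum_mem _ fun τ _ => ?_
    rw [Finset.sum_smul, ← Finset.sum_sub_distrib]
    refine Submodule.sum_mem _ fun g _ => ?_
    have h2 : C.pull (lift (z (τ 0) ≫ (g : Aut X).hom) (z (τ 1) ≫ (g : Aut X).hom)) φ -
        ε τ • C.diagC X =
        (C.pull (lift (z (τ 0) ≫ (g : Aut X).hom) (z (τ 1) ≫ (g : Aut X).hom)) (C.diagC X) -
          ε τ • C.diagC X) +
        C.pull (lift (z (τ 0) ≫ (g : Aut X).hom) (z (τ 1) ≫ (g : Aut X).hom))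
          (φ - C.diagC X) := by
      rw [map_sub]
      abel
    rw [h2]
    exact Submodule.add_mem _ (hdiag τ g) (pull_dec_mem (hproj _ _) (hproj _ _) hφ)

/-- A homologically trivial idempotent is zero if the diagonal is a sum of exterior products. -/
lemma eq_zero_of_dec {W : WeilTheory.{u, v, w} C} {φ : C.CH (X.prod X)}
    (hφφ : C.comp φ φ = φ) (hcl : W.cl _ φ = 0) (hφ : φ ∈ dec C X X) : φ = 0 := by
  have hact0 : ∀ c : C.CH X, W.cl X c = 0 → C.act φ c = 0 := by
    intro c hc
    have hn : ∀ a, C.deg X (c * a) = 0 := by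
      intro a
      have h1 : ((C.deg X (c * a) : ℚ) : W.K) = 0 := by
        rw [← W.tr_cl, W.cl_mul, hc, zero_mul, map_zero]
      exact_mod_cast h1
    have key : ∀ d ∈ dec C X X, C.act d c = 0 := by
      intro d hd
      rw [dec] at hd
      induction hd using Submodule.span_induction with
      | mem z hz =>
        obtain ⟨x, y, rfl⟩ := hz
        rw [C.act_ext, hn, zero_smul]
      | zero => rw [C.act_zero]; rfl
      | add a b _ _ ha hb => rw [C.act_add, LinearMap.add_apply, ha, hb, add_zero]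
      | smul q a _ ha => rw [C.act_smul, LinearMap.smul_apply, ha, smul_zero]
    exact key φ hφ
  have hact : ∀ y : C.CH X, C.act φ y = 0 := by
    intro y
    rw [← hφφ, C.act_comp]
    apply hact0
    rw [W.cl_act]
    have : W.act φ = 0 := by
      ext a
      rw [W.act_apply, hcl, zero_mul, map_zero, LinearMap.zero_apply]
    rw [this, LinearMap.zero_apply]
  have h2 : ∀ d ∈ dec C X X, C.comp d φ = 0 := by
    intro d hd
    rw [dec] at hd
    induction hd using Submodule.span_induction with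
    | mem z hz =>
      obtain ⟨x, y, rfl⟩ := hz
      rw [ext_comp', hact, ChowTheory.ext, map_zero, mul_zero]
    | zero => exact C.zero_comp _
    | add a b _ _ ha hb => rw [C.add_comp, ha, hb, add_zero]
    | smul q a _ ha => rw [C.smul_comp, ha, smul_zero]
  rw [← hφφ]
  exact h2 φ hφ

/-- homogeneous dual families -/
lemma exists_dual_fin {W : WeilTheory.{u, v, w} C} (hX : W.AlgebraicCohomology X) :
    ∃ (q : ℕ) (d : Fin q → ℕ) (x y : Fin q → C.CH X),
      (∀ s, d s ≤ X.dim) ∧ (∀ s, x s ∈ C.gr X (d s)) ∧ (∀ s, y s ∈ C.gr X (X.dim - d s)) ∧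
      (∀ s t, C.deg X (x s * y t) = if s = t then 1 else 0) ∧
      Submodule.span W.K (Set.range fun s => W.cl X (x s)) = ⊤ := by
  obtain ⟨ι, _, _, d, x, y, hd, hx, hy, hxy, hsp⟩ := hX.exists_dual
  set e := (Fintype.equivFin ι).symm with he
  refine ⟨Fintype.card ι, d ∘ e, x ∘ e, y ∘ e, fun s => hd _, fun s => hx _, fun s => hy _,
    fun s t => ?_, ?_⟩
  · simp only [Function.comp_apply, hxy, e.injective.eq_iff]
  · rw [← hsp]
    congr 1
    exact e.surjective.range_comp (fun s => W.cl X (x s))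

/-- if the diagonal is a sum of exterior products, then so are all classes on powers -/
lemma extSpan_eq_top {q : ℕ} {x y : Fin q → C.CH X} (h : C.diagC X = ∑ s, C.ext (y s) (x s))
    (n : ℕ) : C.extSpan (⊤ : Submodule ℚ (C.CH X)) n = ⊤ := by
  induction n with
  | zero =>
    rw [eq_top_iff]
    intro a _
    refine Submodule.subset_span ⟨fun _ => a, fun _ => trivial, ?_⟩
    rw [ChowTheory.extProd, Fin.prod_univ_one]
    exact (C.pull_id X a).symm
  | succ n ih =>
    rw [eq_top_iff]
    intro a _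
    have h1 : a = ∑ s, C.ext (y s) (C.act (Y := pw X n) a (x s)) := by
      have h2 := C.diagC_comp (X := X) (Y := pw X n) a
      rw [h, C.sum_comp] at h2
      conv_lhs => rw [← h2]
      exact Finset.sum_congr rfl fun s _ => ext_comp' _ _ _
    rw [h1]
    refine Submodule.sum_mem _ fun s _ => ?_
    have h3 : C.act (Y := pw X n) a (x s) ∈ C.extSpan (⊤ : Submodule ℚ (C.CH X)) n := by
      rw [ih]; trivial
    generalize C.act (Y := pw X n) a (x s) = b at h3
    rw [ChowTheory.extSpan] at h3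
    induction h3 using Submodule.span_induction with
    | mem z hz =>
      obtain ⟨v, -, rfl⟩ := hz
      refine Submodule.subset_span ⟨Fin.cons (y s) v, fun _ => trivial, ?_⟩
      rw [C.extProd_succ]
      simp only [Fin.cons_zero, Fin.cons_succ]
    | zero =>
      rw [ChowTheory.ext, map_zero, mul_zero]
      exact Submodule.zero_mem _
    | add a b _ _ ha hb =>
      have : C.ext (Y := pw X n) (y s) (a + b) = C.ext (y s) a + C.ext (y s) b := by
        rw [ChowTheory.ext, ChowTheory.ext, ChowTheory.ext, map_add, mul_add]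
      rw [this]
      exact Submodule.add_mem _ ha hb
    | smul c a _ ha =>
      have : C.ext (Y := pw X n) (y s) (c • a) = c • C.ext (y s) a := by
        rw [ChowTheory.ext, ChowTheory.ext, map_smul, mul_smul_comm]
      rw [this]
      exact Submodule.smul_mem _ c ha

theorem tfae_main {W : WeilTheory.{u, v, w} C} (hX : W.AlgebraicCohomology X)
    (G : Subgroup (Aut X)) [Fintype G] (n : ℕ) :
    List.TFAE [ClInjectiveAll W (X.prod X), ∀ m, ClInjectiveAll W (pw X m),
      InvariantsNilpotent W G (n + 1)] := by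
  obtain ⟨q, d, x, y, hd, hx, hy, hxy, hsp⟩ := exists_dual_fin hX
  obtain ⟨hφφ, hφcl, hφ0⟩ := WeilTheory.split_of_dual (W := W) hxy hsp rfl
  set φ := C.diagC X - ∑ s, C.ext (y s) (x s) with hφ
  have hsum : ∑ s, C.ext (y s) (x s) ∈ dec C X X :=
    Submodule.sum_mem _ fun s _ => ext_mem_dec _ _
  have hmem : φ ∈ C.gr (X.prod X) X.dim := by
    refine Submodule.sub_mem _ (C.diagC_mem X) (Submodule.sum_mem _ fun s _ => ?_)
    have := C.ext_mem (hy s) (hx s)
    rwa [Nat.sub_add_cancel (hd s)] at this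
  tfae_have 1 → 2 := by
    intro h m i z _ h0
    have h1 : φ = 0 := h _ φ hmem hφcl
    have h2 : C.diagC X = ∑ s, C.ext (y s) (x s) := by rwa [hφ, sub_eq_zero] at h1
    refine ChowTheory.eq_zero_of_taut hxy h2 (n := m) ?_ ?_
    · rw [extSpan_eq_top h2]
      trivial
    · intro b
      have h3 : ((C.deg _ (z * b) : ℚ) : W.K) = 0 := by
        rw [← W.tr_cl, W.cl_mul, h0, zero_mul, map_zero]
      exact_mod_cast h3
  tfae_have 2 → 3 := by
    intro h a ha h0 _
    rw [h (n + 1) _ a ha h0]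
    exact sn_zero
  tfae_have 3 → 1 := by
    intro h
    have h1 := h (theta G n φ) (theta_mem G n hmem) (cl_theta (W := W) G n hφcl)
      (invariant_theta G n φ)
    obtain ⟨c, hc, hd⟩ := exists_count G n (φ := φ) (by
      rw [hφ, sub_sub_cancel_left]
      exact Submodule.neg_mem _ hsum)
    have h2 : C.diagC X ∈ dec C X X := diag_mem_dec (sn_pull _ h1) hc hd
    have h3 : φ ∈ dec C X X := Submodule.sub_mem _ h2 hsum
    have h4 : φ = 0 := eq_zero_of_dec hφφ hφcl h3
    exact fun i γ _ hγ => hφ0 h4 γ hγ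
  tfae_finish

end Pool.Agent.R905.BQ
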