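import Pool.Agent.R905.BQ.Main

/-!
# Quotients of powers of a surface whose zero-cycles are supported on a surface
-/

open CategoryTheory CategoryTheory.Limits AlgebraicGeometry
open Pool.Agent.H914 Pool.Agent.H914.VarClass Pool.Agent.H914.VarClass.Obj
open Pool.Agent.R903

universe u v w

namespace Pool.Agent.R905.BQ

variable {k : Type u} [Field k] {𝒱 : VarClass k} {C : ChowTheory.{u, v} 𝒱} {X Y Z T P : 𝒱.Obj}

lemma dim_pw (X : 𝒱.Obj) (n : ℕ) : (pw X n).dim = (n + 1) * X.dim := by
  induction n with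
  | zero => simp [pw]
  | succ n ih => rw [pw, dim_prod, ih]; ring

lemma act_groupSum (G : Subgroup (Aut X)) [Fintype G] (n : ℕ) {a : C.CH (pw X n)}
    (ha : Invariant C G n a) : C.act (groupSum C G n) a =
      ((Fintype.card (Equiv.Perm (Fin (n + 1))) * Fintype.card G : ℕ) : ℚ) • a := by
  have h : ∀ h : Equiv.Perm (Fin (n + 1)) × G,
      C.act (tgraph C (move n h.1 (h.2.1 : Aut X).hom)) a = a := by
    intro h
    have h1 := C.act_cograph (move n h.1 (h.2.1 : Aut X).hom) a
    rw [ha h.1 h.2.1 h.2.2] at h1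
    exact h1
  rw [groupSum, C.act_sum, LinearMap.sum_apply]
  simp only [h]
  rw [Finset.sum_const, Finset.card_univ, ← Nat.cast_smul_eq_nsmul ℚ, Fintype.card_prod]

/-- codimension two cycles which are homologically trivial are made smash-nilpotent -/
lemma sn_of_supported {W : WeilTheory.{u, v, w} C} (hW : SmallNilpotent W) (hY : 1 ≤ Y.dim)
    {e : C.CH (Y.prod Y)} (he : SupportedOnSurface C e) {a : C.CH Y} (ha : a ∈ C.gr Y 2)
    (hcl : W.cl Y a = 0) : C.SmashNilpotent (C.act e a) := by
  rw [SupportedOnSurface, InSpan] at he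
  induction he using Submodule.span_induction with
  | mem f hf =>
    rcases hf with ⟨S, hS, α, β, hα, -, rfl⟩ | ⟨Z, α, β, hα, -, rfl⟩
    · rw [C.act_comp]
      refine sn_act β (hW.2 S _ hS (C.act_mem hα ha (by omega)) ?_)
      rw [HomTriv, W.cl_act, hcl, map_zero]
    · rw [C.act_comp]
      refine sn_act β (hW.1 Z _ (C.act_mem hα ha (by omega)) ?_)
      rw [HomTriv, W.cl_act, hcl, map_zero]
  | zero => rw [C.act_zero]; exact sn_zero
  | add x y _ _ hx hy => rw [C.act_add, LinearMap.add_apply]; exact sn_add hx hy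
  | smul c x _ hx => rw [C.act_smul, LinearMap.smul_apply]; exact sn_smul c hx

lemma invariantsNilpotent_of_supported {W : WeilTheory.{u, v, w} C} (hW : SmallNilpotent W)
    (hX : X.dim = 2) (G : Subgroup (Aut X)) [Fintype G] (n : ℕ)
    (h : SupportedOnSurface C (groupSum C G n)) : InvariantsNilpotent W G n := by
  intro a ha hcl hinv
  rw [hX, InGr] at ha
  have h1 := sn_of_supported hW (by rw [dim_pw, hX]; omega) h ha hcl
  rw [act_groupSum G n hinv] at h1
  set N : ℚ := ((Fintype.card (Equiv.Perm (Fin (n + 1))) * Fintype.card G : ℕ) : ℚ) with hN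
  have hN0 : N ≠ 0 := by
    rw [hN]
    exact_mod_cast (Nat.mul_pos Fintype.card_pos Fintype.card_pos).ne'
  have h2 := sn_smul N⁻¹ h1
  rwa [smul_smul, inv_mul_cancel₀ hN0, one_smul] at h2

/-! ### the converse -/

lemma pull_lift_ext' (f : T ⟶ X) (g : T ⟶ Y) (a : C.CH X) (b : C.CH Y) :
    C.pull (lift f g) (C.ext a b) = C.pull f a * C.pull g b := by
  rw [ChowTheory.ext, C.pull_mul, ← C.pull_comp, ← C.pull_comp, Obj.lift_fst, Obj.lift_snd]

/-- all classes on products with a power of `X` are sums of exterior products, if the diagonal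
is -/
lemma dec_eq_top {q : ℕ} {x y : Fin q → C.CH X} (h : C.diagC X = ∑ s, C.ext (y s) (x s))
    (n : ℕ) : ∀ (Y : 𝒱.Obj) (a : C.CH ((pw X n).prod Y)), a ∈ dec C (pw X n) Y := by
  have h0 : ∀ (Y : 𝒱.Obj) (a : C.CH (X.prod Y)), ∃ b : Fin q → C.CH Y,
      a = ∑ s, C.ext (y s) (b s) := by
    intro Y a
    refine ⟨fun s => C.act a (x s), ?_⟩
    have h2 := C.diagC_comp (X := X) (Y := Y) a
    rw [h, C.sum_comp] at h2
    conv_lhs => rw [← h2]
    exact Finset.sum_congr rfl fun s _ => ext_comp' _ _ _
  induction n with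
  | zero =>
    intro Y a
    obtain ⟨b, hb⟩ := h0 Y a
    rw [hb]
    exact Submodule.sum_mem _ fun s _ => ext_mem_dec _ _
  | succ n ih =>
    intro Y a
    set A : X.prod ((pw X n).prod Y) ⟶ (X.prod (pw X n)).prod Y :=
      lift (lift (fst _ _) (snd _ _ ≫ fst _ _)) (snd _ _ ≫ snd _ _) with hA
    set B : (X.prod (pw X n)).prod Y ⟶ X.prod ((pw X n).prod Y) :=
      lift (fst _ _ ≫ fst _ _) (lift (fst _ _ ≫ snd _ _) (snd _ _)) with hB
    have hBA : B ≫ A = 𝟙 _ := by
      rw [hA, hB]
      apply hom_ext_prod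
      · apply hom_ext_prod <;> simp
      · simp
    obtain ⟨b, hb⟩ := h0 _ (C.pull A a)
    have h1 : a = C.pull B (C.pull A a) := by
      rw [← C.pull_comp, hBA, C.pull_id]
    have h2 : ∀ s, C.pull B (C.ext (y s) (b s)) ∈ dec C (X.prod (pw X n)) Y := by
      intro s
      have hbs := ih Y (b s)
      generalize b s = c at hbs
      rw [dec] at hbs
      induction hbs using Submodule.span_induction with
      | mem z hz =>
        obtain ⟨p, r, rfl⟩ := hz
        have e : C.pull B (C.ext (y s) (C.ext p r)) = C.ext (C.ext (y s) p) r := by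
          rw [hB, pull_lift_ext', pull_lift_ext', ChowTheory.ext, ChowTheory.ext, C.pull_mul,
            ← C.pull_comp, ← C.pull_comp, mul_assoc]
        rw [e]
        exact ext_mem_dec _ _
      | zero =>
        rw [ChowTheory.ext, map_zero, mul_zero, map_zero]
        exact Submodule.zero_mem _
      | add u v _ _ hu hv =>
        have : C.ext (y s) (u + v) = C.ext (y s) u + C.ext (y s) v := by
          rw [ChowTheory.ext, ChowTheory.ext, ChowTheory.ext, map_add, mul_add]
        rw [this, map_add]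
        exact Submodule.add_mem _ hu hv
      | smul c u _ hu =>
        have : C.ext (y s) (c • u) = c • C.ext (y s) u := by
          rw [ChowTheory.ext, ChowTheory.ext, map_smul, mul_smul_comm]
        rw [this, map_smul]
        exact Submodule.smul_mem _ c hu
    rw [h1, hb, map_sum]
    exact Submodule.sum_mem _ fun s _ => h2 s

/-- a decomposable class of codimension `N` is a sum of exterior products of homogeneous classes
whose codimensions add up to `N` -/
lemma mem_hom_dec {N : ℕ} {e : C.CH (X.prod Y)} (he : e ∈ C.gr _ N) (hd : e ∈ dec C X Y) :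
    e ∈ Submodule.span ℚ {z | ∃ i j, i + j = N ∧ ∃ a ∈ C.gr X i, ∃ b ∈ C.gr Y j,
      z = C.ext a b} := by
  classical
  set M : Submodule ℚ (C.CH (X.prod Y)) := Submodule.span ℚ {z | ∃ i j, i + j = N ∧
    ∃ a ∈ C.gr X i, ∃ b ∈ C.gr Y j, z = C.ext a b} with hM
  let _ : DirectSum.Decomposition (C.gr (X.prod Y)) :=
    (C.isInternal (X.prod Y)).chooseDecomposition
  set π : C.CH (X.prod Y) → C.CH (X.prod Y) := fun z =>
    ((DirectSum.decompose (C.gr (X.prod Y)) z) N : C.CH (X.prod Y)) with hπ
  have hπadd : ∀ a b, π (a + b) = π a + π b := by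
    intro a b
    simp [hπ, DirectSum.decompose_add]
  have hπsmul : ∀ (c : ℚ) a, π (c • a) = c • π a := by
    intro c a
    simp only [hπ, DirectSum.decompose_smul]
    rfl
  have hπ0 : π 0 = 0 := by simp [hπ]
  have h1 : ∀ d ∈ dec C X Y, π d ∈ M := by
    intro d hd
    rw [dec] at hd
    induction hd using Submodule.span_induction with
    | mem z hz =>
      obtain ⟨a, b, rfl⟩ := hz
      refine gr_induction (C.isInternal X) (p := fun a => π (C.ext a b) ∈ M) ?_ ?_ a
      · intro i a ha
        refine gr_induction (C.isInternal Y) (p := fun b => π (C.ext a b) ∈ M) ?_ ?_ b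
        · intro j b hb
          by_cases hij : i + j = N
          · have h3 : π (C.ext a b) = C.ext a b := by
              rw [hπ]
              exact DirectSum.decompose_of_mem_same _ (hij ▸ C.ext_mem ha hb)
            rw [h3]
            exact Submodule.subset_span ⟨i, j, hij, a, ha, b, hb, rfl⟩
          · have h3 : π (C.ext a b) = 0 := by
              rw [hπ]
              exact DirectSum.decompose_of_mem_ne _ (C.ext_mem ha hb) hij
            rw [h3]
            exact Submodule.zero_mem _
        · intro b b' hb hb'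
          have : C.ext a (b + b') = C.ext a b + C.ext a b' := by
            rw [ChowTheory.ext, ChowTheory.ext, ChowTheory.ext, map_add, mul_add]
          rw [this, hπadd]
          exact Submodule.add_mem _ hb hb'
      · intro a a' ha ha'
        have : C.ext (a + a') b = C.ext a b + C.ext a' b := by
          rw [ChowTheory.ext, ChowTheory.ext, ChowTheory.ext, map_add, add_mul]
        rw [this, hπadd]
        exact Submodule.add_mem _ ha ha'
    | zero => rw [hπ0]; exact Submodule.zero_mem _
    | add a b _ _ ha hb => rw [hπadd]; exact Submodule.add_mem _ ha hb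
    | smul c a _ ha => rw [hπsmul]; exact Submodule.smul_mem _ c ha
  have h2 : π e = e := DirectSum.decompose_of_mem_same _ he
  rw [← h2]
  exact h1 e hd

lemma pow_mem {D : C.CH X} (hD : D ∈ C.gr X 1) (n : ℕ) : D ^ n ∈ C.gr X n := by
  induction n with
  | zero => rw [pow_zero]; exact C.one_mem X
  | succ n ih => rw [pow_succ]; exact C.mul_mem ih hD

lemma supported_of_hom (hP : C.Polarized) {S : 𝒱.Obj} (hS : S.dim ≤ 2) {i j : ℕ}
    (hij : i + j = Y.dim) {a b : C.CH Y} (ha : a ∈ C.gr Y i) (hb : b ∈ C.gr Y j) :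
    SupportedOnSurface C (C.ext a b) := by
  rcases Nat.eq_zero_or_pos j with hj | hj
  · subst hj
    obtain ⟨D, hD, hD0⟩ := hP S
    refine Submodule.subset_span (Or.inl ⟨S, hS, C.ext a 1,
      C.ext ((C.deg S (D ^ S.dim))⁻¹ • D ^ S.dim) b, ?_, ?_, ?_⟩)
    · have := C.ext_mem ha (C.one_mem S)
      rwa [hij] at this
    · have := C.ext_mem (Submodule.smul_mem _ (C.deg S (D ^ S.dim))⁻¹ (pow_mem hD S.dim)) hb
      exact this
    · rw [ext_comp', C.act_ext, one_mul, map_smul, smul_eq_mul, inv_mul_cancel₀ hD0, one_smul]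
  · obtain ⟨D, hD, hD0⟩ := hP Y
    refine Submodule.subset_span (Or.inr ⟨Y, C.ext a (D ^ (j - 1)),
      C.ext ((C.deg Y (D ^ Y.dim))⁻¹ • D ^ (i + 1)) b, ?_, ?_, ?_⟩)
    · have := C.ext_mem ha (pow_mem hD (j - 1))
      have e : i + (j - 1) = Y.dim - 1 := by omega
      rwa [e] at this
    · have := C.ext_mem (Submodule.smul_mem _ (C.deg Y (D ^ Y.dim))⁻¹ (pow_mem hD (i + 1))) hb
      have e : i + 1 + j = Y.dim + 1 := by omega
      rwa [e] at this
    · have e : D ^ (j - 1) * (C.deg Y (D ^ Y.dim))⁻¹ • D ^ (i + 1) =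
          (C.deg Y (D ^ Y.dim))⁻¹ • D ^ Y.dim := by
        rw [mul_smul_comm, ← pow_add]
        congr 2
        omega
      rw [ext_comp', C.act_ext, e, map_smul, smul_eq_mul, inv_mul_cancel₀ hD0, one_smul]

lemma supported_of_dec (hP : C.Polarized) {S : 𝒱.Obj} (hS : S.dim ≤ 2) {e : C.CH (Y.prod Y)}
    (he : e ∈ C.gr _ Y.dim) (hd : e ∈ dec C Y Y) : SupportedOnSurface C e := by
  have h := mem_hom_dec he hd
  clear he hd
  rw [SupportedOnSurface, InSpan]
  induction h using Submodule.span_induction with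
  | mem z hz =>
    obtain ⟨i, j, hij, a, ha, b, hb, rfl⟩ := hz
    exact supported_of_hom hP hS hij ha hb
  | zero => exact Submodule.zero_mem _
  | add a b _ _ ha hb => exact Submodule.add_mem _ ha hb
  | smul c a _ ha => exact Submodule.smul_mem _ c ha

lemma groupSum_mem (G : Subgroup (Aut X)) [Fintype G] (n : ℕ) :
    groupSum C G n ∈ C.gr _ (pw X n).dim :=
  Submodule.sum_mem _ fun _ _ => C.cograph_mem _

theorem iff_supported {W : WeilTheory.{u, v, w} C} (hX : W.AlgebraicCohomology X)
    (hP : C.Polarized) (hW : SmallNilpotent W) (hX2 : X.dim = 2) (G : Subgroup (Aut X))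
    [Fintype G] (n : ℕ) :
    ClInjectiveAll W (X.prod X) ↔ SupportedOnSurface C (groupSum C G (n + 1)) := by
  constructor
  · intro h
    obtain ⟨q, d, x, y, hd, hx, hy, hxy, hsp⟩ := exists_dual_fin hX
    obtain ⟨hφφ, hφcl, hφ0⟩ := WeilTheory.split_of_dual (W := W) hxy hsp rfl
    set φ := C.diagC X - ∑ s, C.ext (y s) (x s) with hφ
    have hmem : φ ∈ C.gr (X.prod X) X.dim := by
      refine Submodule.sub_mem _ (C.diagC_mem X) (Submodule.sum_mem _ fun s _ => ?_)
      have := C.ext_mem (hy s) (hx s)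
      rwa [Nat.sub_add_cancel (hd s)] at this
    have h1 : φ = 0 := h _ φ hmem hφcl
    have h2 : C.diagC X = ∑ s, C.ext (y s) (x s) := by rwa [hφ, sub_eq_zero] at h1
    exact supported_of_dec hP hX2.le (groupSum_mem G (n + 1)) (dec_eq_top h2 _ _ _)
  · intro h
    exact (tfae_main hX G n).out 2 0 |>.1 (invariantsNilpotent_of_supported hW hX2 G (n + 1) h)

end Pool.Agent.R905.BQ
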