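import Pool.Agent.R905.BQ.DefsE
import Pool.Agent.R905.BQ.Surf

/-!
# Bloch's conjecture for idempotent correspondences
-/

open CategoryTheory CategoryTheory.Limits AlgebraicGeometry
open Pool.Agent.H914 Pool.Agent.H914.VarClass Pool.Agent.H914.VarClass.Obj
open Pool.Agent.R903

universe u v w

namespace Pool.Agent.R905.BQ

variable {k : Type u} [Field k] {𝒱 : VarClass k} {C : ChowTheory.{u, v} 𝒱} {X Y Z T : 𝒱.Obj}

lemma decomposable_iff {e : C.CH (X.prod Y)} : Decomposable C e ↔ e ∈ dec C X Y := Iff.rfl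

lemma transp_ext (x : C.CH X) (y : C.CH Y) : C.transp (C.ext x y) = C.ext y x := by
  rw [ChowTheory.transp, swap, pull_lift_ext', ChowTheory.ext, mul_comm]

lemma transp_transp (γ : C.CH (X.prod Y)) : C.transp (C.transp γ) = γ := by
  rw [ChowTheory.transp, ChowTheory.transp, ← C.pull_comp]
  have : swap X Y ≫ swap Y X = 𝟙 _ := by apply hom_ext_prod <;> simp
  rw [this, C.pull_id]

lemma transp_mem_dec {d : C.CH (X.prod Y)} (hd : d ∈ dec C X Y) : C.transp d ∈ dec C Y X := by
  rw [dec] at hd
  induction hd using Submodule.span_induction with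
  | mem z hz =>
    obtain ⟨x, y, rfl⟩ := hz
    rw [transp_ext]
    exact ext_mem_dec _ _
  | zero => rw [C.transp_zero]; exact Submodule.zero_mem _
  | add a b _ _ ha hb =>
    rw [ChowTheory.transp, map_add]
    exact Submodule.add_mem _ ha hb
  | smul c a _ ha =>
    rw [ChowTheory.transp, map_smul]
    exact Submodule.smul_mem _ c ha

lemma comp_mem_dec' (w : C.CH (X.prod Z)) {d : C.CH (Z.prod Y)} (hd : d ∈ dec C Z Y) :
    C.comp w d ∈ dec C X Y := by
  rw [← transp_transp (C.comp w d), ← C.comp_transp]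
  exact transp_mem_dec (comp_mem_dec (transp_mem_dec hd) _)

lemma comp_sub' (α : C.CH (X.prod Y)) (β γ : C.CH (Y.prod Z)) :
    C.comp α (β - γ) = C.comp α β - C.comp α γ := by
  rw [sub_eq_add_neg, C.comp_add, ← neg_one_smul ℚ γ, C.comp_smul, neg_one_smul,
    ← sub_eq_add_neg]

lemma sub_comp' (α β : C.CH (X.prod Y)) (γ : C.CH (Y.prod Z)) :
    C.comp (α - β) γ = C.comp α γ - C.comp β γ := by
  rw [sub_eq_add_neg, C.add_comp, ← neg_one_smul ℚ β, C.smul_comp, neg_one_smul,
    ← sub_eq_add_neg]

/-- If `c e - d` is smash-nilpotent for an idempotent `e` and a sum `d` of exterior products, then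
`e` is a sum of exterior products. -/
lemma idem_mem_dec {e ψ : C.CH (X.prod X)} (he : C.comp e e = e) (h : C.SmashNilpotent ψ)
    {c : ℚ} (hc : c ≠ 0) (hd : ψ - c • e ∈ dec C X X) : e ∈ dec C X X := by
  obtain ⟨n, hn⟩ := cpow_eq_zero h
  have key : ∀ m, C.comp e (cpow ψ m) - c ^ m • e ∈ dec C X X := by
    intro m
    induction m with
    | zero => simp [cpow, C.comp_diagC]
    | succ m ih =>
      have e1 : C.comp e (cpow ψ (m + 1)) - c ^ (m + 1) • e =
          C.comp (C.comp e (cpow ψ m) - c ^ m • e) ψ + c ^ m • C.comp e (ψ - c • e) := by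
        rw [cpow, ← C.comp_assoc, sub_comp', C.smul_comp, comp_sub', C.comp_smul, he, smul_sub,
          smul_smul, ← pow_succ]
        abel
      rw [e1]
      exact Submodule.add_mem _ (comp_mem_dec ih ψ)
        (Submodule.smul_mem _ _ (comp_mem_dec' e hd))
  have h1 := key n
  rw [hn, C.comp_zero, zero_sub] at h1
  have h2 := (Submodule.neg_mem_iff _).1 h1
  exact (Submodule.smul_mem_iff _ (pow_ne_zero n hc)).1 h2

lemma ProductType.pull_mem {h : X.prod X ⟶ X.prod X} (hh : ProductType h)
    {d : C.CH (X.prod X)} (hd : d ∈ dec C X X) : C.pull h d ∈ dec C X X := by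
  obtain ⟨g, g', rfl | rfl⟩ := hh
  · exact pull_dec_mem ⟨g, Or.inl rfl⟩ ⟨g', Or.inr rfl⟩ hd
  · exact pull_dec_mem ⟨g, Or.inr rfl⟩ ⟨g', Or.inl rfl⟩ hd

/-- homologically trivial correspondences between sums of exterior products vanish -/
lemma comp_eq_zero_of_dec {W : WeilTheory.{u, v, w} C} {γ : C.CH (X.prod X)}
    (hγ : W.cl _ γ = 0) {d d' : C.CH (X.prod X)} (hd : d ∈ dec C X X) (hd' : d' ∈ dec C X X) :
    C.comp (C.comp d γ) d' = 0 := by
  have hact : ∀ b a : C.CH X, C.deg X (C.act γ b * a) = 0 := by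
    intro b a
    have h0 : W.act γ = 0 := by
      ext c
      rw [W.act_apply, hγ, zero_mul, map_zero, LinearMap.zero_apply]
    have h1 : ((C.deg X (C.act γ b * a) : ℚ) : W.K) = 0 := by
      rw [← W.tr_cl, W.cl_mul, W.cl_act, h0, LinearMap.zero_apply, zero_mul, map_zero]
    exact_mod_cast h1
  rw [dec] at hd
  induction hd using Submodule.span_induction with
  | mem z hz =>
    obtain ⟨a, b, rfl⟩ := hz
    rw [ext_comp']
    rw [dec] at hd'
    induction hd' using Submodule.span_induction with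
    | mem z hz =>
      obtain ⟨a', b', rfl⟩ := hz
      rw [C.ext_comp_ext, hact, zero_smul]
    | zero => exact C.comp_zero _
    | add x y _ _ hx hy => rw [C.comp_add, hx, hy, add_zero]
    | smul c x _ hx => rw [C.comp_smul, hx, smul_zero]
  | zero => rw [C.zero_comp, C.zero_comp]
  | add x y _ _ hx hy => rw [C.add_comp, C.add_comp, hx, hy, add_zero]
  | smul c x _ hx => rw [C.smul_comp, C.smul_comp, hx, smul_zero]

theorem tfae_idem {W : WeilTheory.{u, v, w} C} {e : C.CH (X.prod X)} (he : IsIdem C e)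
    (hd : HomDecomposable W e) {n : ℕ} (h : Fin (n + 1) → (X.prod X ⟶ X.prod X))
    (hh : ∀ i, ProductType (h i)) (hfix : ∀ i, C.pull (h i) e = e) :
    List.TFAE [Decomposable C e, PartZero W e, SumsNilpotent W e h] := by
  tfae_have 1 → 2 := by
    intro h1 γ _ hγ
    exact comp_eq_zero_of_dec (W := W) hγ h1 h1
  tfae_have 2 → 3 := by
    intro h1 γ hγ hγ0
    refine sn_sum _ fun i _ => ?_
    rw [h1 γ hγ hγ0, map_zero]
    exact sn_zero
  tfae_have 3 → 1 := by
    intro h1
    obtain ⟨d, hd1, hd2, hd3⟩ := hd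
    have h2 := h1 (e - d) (Submodule.sub_mem _ he.1 hd2) hd3
    set d' := C.comp (C.comp e d) e with hd'
    have hd'm : d' ∈ dec C X X := comp_mem_dec (comp_mem_dec' e hd1) e
    have h3 : C.comp (C.comp e (e - d)) e = e - d' := by
      rw [comp_sub', sub_comp', he.2, he.2]
    rw [h3] at h2
    refine idem_mem_dec he.2 h2 (c := ((n + 1 : ℕ) : ℚ)) (by exact_mod_cast n.succ_ne_zero) ?_
    have h4 : ∑ i, C.pull (h i) (e - d') - ((n + 1 : ℕ) : ℚ) • e =
        - ∑ i, C.pull (h i) d' := by
      simp only [map_sub, hfix, Finset.sum_sub_distrib, Finset.sum_const, Finset.card_univ,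
        Fintype.card_fin, Nat.cast_smul_eq_nsmul]
      abel
    rw [h4]
    exact Submodule.neg_mem _ (Submodule.sum_mem _ fun i _ => (hh i).pull_mem hd'm)
  tfae_finish

lemma sand_eq (e : C.CH (X.prod X)) : sand C e = C.tensor (C.transp e) e := by
  rw [sand, ChowTheory.tensor, ChowTheory.transp, ← C.pull_comp]
  have h1 : prodMap (fst X X) (fst X X) ≫ swap X X =
      lift (snd (X.prod X) (X.prod X) ≫ fst X X) (fst (X.prod X) (X.prod X) ≫ fst X X) := by
    apply hom_ext_prod <;> simp
  have h2 : prodMap (snd X X) (snd X X) =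
      lift (fst (X.prod X) (X.prod X) ≫ snd X X) (snd (X.prod X) (X.prod X) ≫ snd X X) := rfl
  rw [h1, h2]

lemma act_famSum (e γ : C.CH (X.prod X)) {n : ℕ} (h : Fin n → (X.prod X ⟶ X.prod X)) :
    C.act (famSum C e h) γ = ∑ i, C.pull (h i) (C.comp (C.comp e γ) e) := by
  rw [famSum, C.act_sum, LinearMap.sum_apply]
  refine Finset.sum_congr rfl fun i _ => ?_
  rw [C.act_comp, sand_eq, C.act_tensor]
  exact C.act_cograph (h i) _

lemma tensor_mem_dec {d d' : C.CH (X.prod X)} (hd : d ∈ dec C X X) (hd' : d' ∈ dec C X X) :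
    C.tensor (C.transp d) d' ∈ dec C (X.prod X) (X.prod X) := by
  have hd2 := transp_mem_dec hd
  generalize C.transp d = t at hd2
  rw [dec] at hd2
  induction hd2 using Submodule.span_induction with
  | mem z hz =>
    obtain ⟨a, b, rfl⟩ := hz
    rw [dec] at hd'
    induction hd' using Submodule.span_induction with
    | mem z hz =>
      obtain ⟨a', b', rfl⟩ := hz
      have : C.tensor (C.ext a b) (C.ext a' b') = C.ext (C.ext a a') (C.ext b b') := by
        rw [ChowTheory.tensor, prodMap, prodMap, pull_lift_ext', pull_lift_ext', ChowTheory.ext,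
          ChowTheory.ext, ChowTheory.ext, C.pull_mul, C.pull_mul, ← C.pull_comp, ← C.pull_comp,
          ← C.pull_comp, ← C.pull_comp]
        ring
      rw [this]
      exact ext_mem_dec _ _
    | zero => rw [C.tensor_zero]; exact Submodule.zero_mem _
    | add x y _ _ hx hy => rw [C.tensor_add]; exact Submodule.add_mem _ hx hy
    | smul c x _ hx =>
      have : C.tensor (C.ext a b) (c • x) = c • C.tensor (C.ext a b) x := by
        rw [ChowTheory.tensor, ChowTheory.tensor, map_smul, mul_smul_comm]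
      rw [this]
      exact Submodule.smul_mem _ c hx
  | zero => rw [C.zero_tensor]; exact Submodule.zero_mem _
  | add x y _ _ hx hy =>
    have : C.tensor (x + y) d' = C.tensor x d' + C.tensor y d' := by
      rw [ChowTheory.tensor, ChowTheory.tensor, ChowTheory.tensor, map_add, add_mul]
    rw [this]
    exact Submodule.add_mem _ hx hy
  | smul c x _ hx =>
    have : C.tensor (c • x) d' = c • C.tensor x d' := by
      rw [ChowTheory.tensor, ChowTheory.tensor, map_smul, smul_mul_assoc]
    rw [this]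
    exact Submodule.smul_mem _ c hx

theorem idem_iff_supported {W : WeilTheory.{u, v, w} C} (hP : C.Polarized)
    (hW : SmallNilpotent W) (hX2 : X.dim = 2) {e : C.CH (X.prod X)} (he : IsIdem C e)
    (hd : HomDecomposable W e) {n : ℕ} (h : Fin (n + 1) → (X.prod X ⟶ X.prod X))
    (hh : ∀ i, ProductType (h i)) (hfix : ∀ i, C.pull (h i) e = e) :
    Decomposable C e ↔ SupportedOnSurface C (famSum C e h) := by
  constructor
  · intro h1
    refine supported_of_dec hP hX2.le ?_ ?_
    · refine Submodule.sum_mem _ fun i _ => C.comp_mem ?_ (C.cograph_mem (h i)) rfl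
      rw [dim_prod]
      exact C.mul_mem (C.pull_mem _ he.1) (C.pull_mem _ he.1)
    · refine Submodule.sum_mem _ fun i _ => comp_mem_dec ?_ _
      rw [sand_eq]
      exact tensor_mem_dec h1 h1
  · intro h1
    refine (tfae_idem he hd h hh hfix).out 2 0 |>.1 ?_
    intro γ hγ hγ0
    rw [← act_famSum]
    refine sn_of_supported hW (by rw [dim_prod]; omega) h1 ?_ hγ0
    rw [hX2] at hγ
    exact hγ

end Pool.Agent.R905.BQ
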