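import Pool.Agent.R905.BQ.DefsG
import Pool.Agent.R905.BQ.Surf

/-!
# Supports of Chow groups of quotients of powers in all dimensions
-/

open CategoryTheory CategoryTheory.Limits AlgebraicGeometry
open Pool.Agent.H914 Pool.Agent.H914.VarClass Pool.Agent.H914.VarClass.Obj
open Pool.Agent.R903

universe u v w

namespace Pool.Agent.R905.BQ

variable {k : Type u} [Field k] {𝒱 : VarClass k} {C : ChowTheory.{u, v} 𝒱} {X Y Z T P : 𝒱.Obj}

lemma sn_of_supportedInDim {W : WeilTheory.{u, v, w} C} (hW : DivisorsPointsNilpotent W) {d : ℕ}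
    (hY : d ≤ Y.dim) {e : C.CH (Y.prod Y)} (he : SupportedInDim C d e) {a : C.CH Y}
    (ha : a ∈ C.gr Y (d + 1)) (hcl : W.cl Y a = 0) : C.SmashNilpotent (C.act e a) := by
  rw [SupportedInDim, InSpan] at he
  induction he using Submodule.span_induction with
  | mem f hf =>
    rcases hf with ⟨S, hS, α, β, hα, -, rfl⟩ | ⟨Z, α, β, hα, -, rfl⟩
    · rw [C.act_comp]
      refine sn_act β ?_
      have h1 : C.act α a ∈ C.gr S (d + 1) := C.act_mem hα ha (by omega)
      rcases Nat.lt_or_ge S.dim (d + 1) with h | h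
      · rw [C.gr_eq_bot S (d + 1) h, Submodule.mem_bot] at h1
        rw [h1]
        exact sn_zero
      · have h2 : S.dim = d + 1 := le_antisymm hS h
        rw [← h2] at h1
        refine hW.2 S _ h1 ?_
        rw [HomTriv, W.cl_act, hcl, map_zero]
    · rw [C.act_comp]
      refine sn_act β (hW.1 Z _ (C.act_mem hα ha (by omega)) ?_)
      rw [HomTriv, W.cl_act, hcl, map_zero]
  | zero => rw [C.act_zero]; exact sn_zero
  | add x y _ _ hx hy => rw [C.act_add, LinearMap.add_apply]; exact sn_add hx hy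
  | smul c x _ hx => rw [C.act_smul, LinearMap.smul_apply]; exact sn_smul c hx

lemma invariantsNilpotent_of_supportedInDim {W : WeilTheory.{u, v, w} C}
    (hW : DivisorsPointsNilpotent W) {d : ℕ} (hX : X.dim = d + 1) (G : Subgroup (Aut X))
    [Fintype G] (n : ℕ) (h : SupportedInDim C d (groupSum C G n)) :
    InvariantsNilpotent W G n := by
  intro a ha hcl hinv
  rw [hX, InGr] at ha
  have h1 := sn_of_supportedInDim hW (by rw [dim_pw, hX]; nlinarith) h ha hcl
  rw [act_groupSum G n hinv] at h1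
  set N : ℚ := ((Fintype.card (Equiv.Perm (Fin (n + 1))) * Fintype.card G : ℕ) : ℚ) with hN
  have hN0 : N ≠ 0 := by
    rw [hN]
    exact_mod_cast (Nat.mul_pos Fintype.card_pos Fintype.card_pos).ne'
  have h2 := sn_smul N⁻¹ h1
  rwa [smul_smul, inv_mul_cancel₀ hN0, one_smul] at h2

lemma exists_pair (hP : C.Polarized) (Z : 𝒱.Obj) {j : ℕ} (hj : j ≤ Z.dim) :
    ∃ z ∈ C.gr Z j, ∃ w ∈ C.gr Z (Z.dim - j), C.deg Z (z * w) = 1 := by
  obtain ⟨D, hD, hD0⟩ := hP Z
  refine ⟨D ^ j, pow_mem hD j, (C.deg Z (D ^ Z.dim))⁻¹ • D ^ (Z.dim - j),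
    Submodule.smul_mem _ _ (pow_mem hD _), ?_⟩
  rw [mul_smul_comm, ← pow_add, Nat.add_sub_cancel' hj, map_smul, smul_eq_mul,
    inv_mul_cancel₀ hD0]

lemma supportedInDim_of_hom (hP : C.Polarized) {S : 𝒱.Obj} {d : ℕ} (hS : S.dim = d + 1)
    {i j : ℕ} (hij : i + j = Y.dim) {a b : C.CH Y} (ha : a ∈ C.gr Y i) (hb : b ∈ C.gr Y j) :
    SupportedInDim C d (C.ext a b) := by
  rcases Nat.lt_or_ge d j with hj | hj
  · obtain ⟨z, hz, w, hw, hzw⟩ := exists_pair hP Y (j := j - d) (by omega)
    refine Submodule.subset_span (Or.inr ⟨Y, C.ext a z, C.ext w b, ?_, ?_, ?_⟩)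
    · have := C.ext_mem ha hz
      have e : i + (j - d) = Y.dim - d := by omega
      rwa [e] at this
    · have := C.ext_mem hw hb
      have e : Y.dim - (j - d) + j = Y.dim + d := by omega
      rwa [e] at this
    · rw [ext_comp', C.act_ext, hzw, one_smul]
  · obtain ⟨z, hz, w, hw, hzw⟩ := exists_pair hP S (j := j) (by omega)
    refine Submodule.subset_span (Or.inl ⟨S, hS.le, C.ext a z, C.ext w b, ?_, ?_, ?_⟩)
    · have := C.ext_mem ha hz
      rwa [hij] at this
    · have := C.ext_mem hw hb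
      have e : S.dim - j + j = S.dim := by omega
      rwa [e] at this
    · rw [ext_comp', C.act_ext, hzw, one_smul]

lemma supportedInDim_of_dec (hP : C.Polarized) {S : 𝒱.Obj} {d : ℕ} (hS : S.dim = d + 1)
    {e : C.CH (Y.prod Y)} (he : e ∈ C.gr _ Y.dim) (hd : e ∈ dec C Y Y) :
    SupportedInDim C d e := by
  have h := mem_hom_dec he hd
  clear he hd
  rw [SupportedInDim, InSpan]
  induction h using Submodule.span_induction with
  | mem z hz =>
    obtain ⟨i, j, hij, a, ha, b, hb, rfl⟩ := hz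
    exact supportedInDim_of_hom hP hS hij ha hb
  | zero => exact Submodule.zero_mem _
  | add a b _ _ ha hb => exact Submodule.add_mem _ ha hb
  | smul c a _ ha => exact Submodule.smul_mem _ c ha

theorem iff_supportedInDim {W : WeilTheory.{u, v, w} C} (hX : W.AlgebraicCohomology X)
    (hP : C.Polarized) (hW : DivisorsPointsNilpotent W) {d : ℕ} (hXd : X.dim = d + 1)
    (G : Subgroup (Aut X)) [Fintype G] (n : ℕ) :
    ClInjectiveAll W (X.prod X) ↔ SupportedInDim C d (groupSum C G (n + 1)) := by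
  constructor
  · intro h
    obtain ⟨q, dd, x, y, hd, hx, hy, hxy, hsp⟩ := exists_dual_fin hX
    obtain ⟨hφφ, hφcl, hφ0⟩ := WeilTheory.split_of_dual (W := W) hxy hsp rfl
    set φ := C.diagC X - ∑ s, C.ext (y s) (x s) with hφ
    have hmem : φ ∈ C.gr (X.prod X) X.dim := by
      refine Submodule.sub_mem _ (C.diagC_mem X) (Submodule.sum_mem _ fun s _ => ?_)
      have := C.ext_mem (hy s) (hx s)
      rwa [Nat.sub_add_cancel (hd s)] at this
    have h1 : φ = 0 := h _ φ hmem hφcl
    have h2 : C.diagC X = ∑ s, C.ext (y s) (x s) := by rwa [hφ, sub_eq_zero] at h1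
    exact supportedInDim_of_dec hP hXd (groupSum_mem G (n + 1)) (dec_eq_top h2 _ _ _)
  · intro h
    exact (tfae_main hX G n).out 2 0 |>.1
      (invariantsNilpotent_of_supportedInDim hW hXd G (n + 1) h)

end Pool.Agent.R905.BQ
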