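import Pool.Agent.R905.BQ.Defs
import Pool.Agent.R903.Taut

/-!
# Smash-nilpotent classes
-/

open CategoryTheory CategoryTheory.Limits AlgebraicGeometry
open Pool.Agent.H914 Pool.Agent.H914.VarClass Pool.Agent.H914.VarClass.Obj
open Pool.Agent.R903

universe u v w

namespace Pool.Agent.R905.BQ

variable {k : Type u} [Field k] {𝒱 : VarClass k} {C : ChowTheory.{u, v} 𝒱} {X Y Z T : 𝒱.Obj}

/-- `n`-fold exterior products of `a` vanish -/
def VN (a : C.CH X) (n : ℕ) : Prop :=
  ∀ (Y : 𝒱.Obj) (z : Fin n → (Y ⟶ X)), ∏ j, C.pull (z j) a = 0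

lemma VN.mono {a : C.CH X} {m n : ℕ} (h : VN a m) (hmn : m ≤ n) : VN a n := by
  obtain ⟨r, rfl⟩ := Nat.exists_eq_add_of_le hmn
  intro Y z
  rw [Fin.prod_univ_add, h Y (fun i => z (Fin.castAdd r i)), zero_mul]

lemma sn_iff {a : C.CH X} : C.SmashNilpotent a ↔ ∃ n, VN a n := by
  constructor
  · rintro ⟨n, hn⟩
    refine ⟨n + 1, ?_⟩
    by_contra h
    have : C.NZ a (n + 1) := by
      simp only [VN, not_forall] at h
      exact h
    exact (ChowTheory.nz_succ_iff.1 this) hn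
  · rintro ⟨n, hn⟩
    refine ⟨n, ?_⟩
    by_contra h
    obtain ⟨Y, z, hz⟩ := ChowTheory.nz_succ_iff.2 h
    exact hz (hn.mono (Nat.le_succ n) Y z)

/-- a product over a finite set with many factors vanishes -/
lemma VN.prod_eq_zero {a : C.CH X} {n : ℕ} (h : VN a n) {ι : Type*} (S : Finset ι)
    (hS : n ≤ S.card) (x : ι → (Y ⟶ X)) : ∏ i ∈ S, C.pull (x i) a = 0 := by
  classical
  obtain ⟨T, hTS, hT⟩ := Finset.exists_subset_card_eq hS
  rw [← Finset.prod_sdiff hTS]
  have h1 : ∏ i ∈ T, C.pull (x i) a = 0 := by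
    set e : Fin n ≃ T := (T.equivFin.trans (finCongr hT)).symm
    rw [← Finset.prod_coe_sort, ← e.prod_comp]
    exact h Y fun i => x (e i)
  rw [h1, mul_zero]

lemma sn_zero : C.SmashNilpotent (0 : C.CH X) := by
  rw [sn_iff]
  exact ⟨1, fun Y z => by simp⟩

lemma sn_pull (f : Y ⟶ X) {a : C.CH X} (h : C.SmashNilpotent a) :
    C.SmashNilpotent (C.pull f a) := by
  rw [sn_iff] at h ⊢
  obtain ⟨n, hn⟩ := h
  refine ⟨n, fun T z => ?_⟩
  simp only [← C.pull_comp]
  exact hn T _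

lemma sn_smul (q : ℚ) {a : C.CH X} (h : C.SmashNilpotent a) : C.SmashNilpotent (q • a) := by
  rw [sn_iff] at h ⊢
  obtain ⟨n, hn⟩ := h
  refine ⟨n, fun T z => ?_⟩
  simp only [map_smul]
  rw [Finset.prod_smul, hn T z, smul_zero]

lemma sn_add {a b : C.CH X} (ha : C.SmashNilpotent a) (hb : C.SmashNilpotent b) :
    C.SmashNilpotent (a + b) := by
  classical
  rw [sn_iff] at ha hb ⊢
  obtain ⟨m, hm⟩ := ha
  obtain ⟨n, hn⟩ := hb
  refine ⟨m + n, fun T z => ?_⟩
  simp only [map_add]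
  rw [Finset.prod_add]
  refine Finset.sum_eq_zero fun S hS => ?_
  have hc : S.card + (Finset.univ \ S).card = m + n := by
    rw [add_comm, Finset.card_sdiff_add_card_eq_card (Finset.subset_univ S), Finset.card_univ,
      Fintype.card_fin]
  rcases le_or_gt m S.card with h | h
  · rw [hm.prod_eq_zero S h, zero_mul]
  · rw [hn.prod_eq_zero (Finset.univ \ S) (by omega), mul_zero]

lemma sn_sum {ι : Type*} (s : Finset ι) {a : ι → C.CH X} (h : ∀ i ∈ s, C.SmashNilpotent (a i)) :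
    C.SmashNilpotent (∑ i ∈ s, a i) := by
  classical
  induction s using Finset.induction_on with
  | empty => simpa using sn_zero
  | insert i s hi ih =>
    rw [Finset.sum_insert hi]
    exact sn_add (h i (Finset.mem_insert_self i s))
      (ih fun j hj => h j (Finset.mem_insert_of_mem hj))

/-- the pull-back of the action of a correspondence -/
lemma pull_act (γ : C.CH (X.prod Y)) (a : C.CH X) (z : T ⟶ Y) :
    C.pull z (C.act γ a) = C.push (fst T X)
      (C.pull (lift (snd T X) (fst T X ≫ z)) γ * C.pull (snd T X) a) := by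
  have h := C.pull_push_proj (snd X Y) (fst X Y) isIso_swap z
    (lift (snd T X) (fst T X ≫ z)) (by simp) (by simp) (γ * C.pull (fst X Y) a)
  rw [C.act_apply, h, C.pull_mul, ← C.pull_comp, Obj.lift_fst]

/-- Products of pull-backs of `γ_* a` are push-forwards of classes which are divisible by products
of pull-backs of `a`. -/
lemma exists_push (γ : C.CH (X.prod Y)) (a : C.CH X) (n : ℕ) :
    ∀ (T : 𝒱.Obj) (z : Fin n → (T ⟶ Y)), ∃ (T' : 𝒱.Obj) (f : T' ⟶ T) (u : Fin n → (T' ⟶ X))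
      (P : C.CH T'), ∏ j, C.pull (z j) (C.act γ a) = C.push f (P * ∏ j, C.pull (u j) a) := by
  induction n with
  | zero =>
    intro T z
    exact ⟨T, 𝟙 T, Fin.elim0, 1, by simp [C.push_id]⟩
  | succ n ih =>
    intro T z
    obtain ⟨T', f, u, P, h⟩ := ih T (fun j => z j.succ)
    refine ⟨T'.prod X, fst T' X ≫ f, Fin.cons (snd T' X) fun j => fst T' X ≫ u j,
      C.pull (lift (snd T' X) (fst T' X ≫ f ≫ z 0)) γ * C.pull (fst T' X) P, ?_⟩
    rw [Fin.prod_univ_succ, Fin.prod_univ_succ, h, ← C.mul_push, ← C.pull_comp, pull_act,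
      C.push_comp]
    congr 1
    simp only [Fin.cons_zero, Fin.cons_succ]
    rw [← C.push_mul, C.pull_mul, map_prod]
    simp only [← C.pull_comp]
    congr 1
    ring

lemma sn_act (γ : C.CH (X.prod Y)) {a : C.CH X} (h : C.SmashNilpotent a) :
    C.SmashNilpotent (C.act γ a) := by
  rw [sn_iff] at h ⊢
  obtain ⟨n, hn⟩ := h
  refine ⟨n, fun T z => ?_⟩
  obtain ⟨T', f, u, P, h⟩ := exists_push γ a n T z
  rw [h, hn T' u, mul_zero, map_zero]

/-- powers of a correspondence under composition -/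
noncomputable def cpow (ψ : C.CH (X.prod X)) : ℕ → C.CH (X.prod X)
  | 0 => C.diagC X
  | n + 1 => C.comp (cpow ψ n) ψ

lemma nz_of_cpow (ψ : C.CH (X.prod X)) (n : ℕ) : ∀ (r : ℕ) (Y : 𝒱.Obj) (z₀ : Y ⟶ X.prod X)
    (z : Fin r → (Y ⟶ X.prod X)),
    C.pull z₀ (cpow ψ n) * ∏ j, C.pull (z j) ψ ≠ 0 → C.NZ ψ (r + n) := by
  induction n with
  | zero =>
    intro r Y z₀ z h
    exact ⟨Y, z, fun h0 => h (mul_eq_zero_of_right _ h0)⟩
  | succ n ih =>
    intro r Y z₀ z h
    have h4 : lift (z₀ ≫ fst X X) (z₀ ≫ snd X X) = z₀ := by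
      apply hom_ext_prod <;> simp
    have h5 : r + (n + 1) = (r + 1) + n := by omega
    rw [h5]
    apply ih (r + 1) (Y.prod X) (lift (fst Y X ≫ z₀ ≫ fst X X) (snd Y X))
      (Fin.cons (lift (snd Y X) (fst Y X ≫ z₀ ≫ snd X X)) fun i => fst Y X ≫ z i)
    intro h0
    apply h
    rw [cpow]
    conv_lhs => rw [← h4]
    rw [← C.pull_comp_corr, ← C.push_mul]
    rw [Fin.prod_univ_succ] at h0
    simp only [Fin.cons_zero, Fin.cons_succ] at h0
    have h7 : ∏ j, C.pull (fst Y X ≫ z j) ψ = C.pull (fst Y X) (∏ j, C.pull (z j) ψ) := by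
      rw [map_prod]
      simp only [C.pull_comp]
    rw [h7, ← mul_assoc] at h0
    rw [h0, map_zero]

/-- smash-nilpotent correspondences are nilpotent -/
lemma cpow_eq_zero {ψ : C.CH (X.prod X)} (h : C.SmashNilpotent ψ) : ∃ n, cpow ψ n = 0 := by
  rw [sn_iff] at h
  obtain ⟨n, hn⟩ := h
  refine ⟨n, ?_⟩
  by_contra h0
  obtain ⟨Y, z, hz⟩ := nz_of_cpow ψ n 0 (X.prod X) (𝟙 _) Fin.elim0 (by simpa [C.pull_id] using h0)
  exact hz (hn.mono (by omega) Y z)

/-- the span of the exterior products -/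
noncomputable def dec (C : ChowTheory.{u, v} 𝒱) (X Y : 𝒱.Obj) : Submodule ℚ (C.CH (X.prod Y)) :=
  Submodule.span ℚ {z | ∃ x y, z = C.ext x y}

lemma ext_mem_dec (x : C.CH X) (y : C.CH Y) : C.ext x y ∈ dec C X Y :=
  Submodule.subset_span ⟨x, y, rfl⟩

lemma ext_comp' (x : C.CH X) (y : C.CH Z) (w : C.CH (Z.prod Y)) :
    C.comp (C.ext x y) w = C.ext x (C.act w y) := by
  rw [ChowTheory.comp, ChowTheory.ext, ChowTheory.ext, C.pull_mul, ← C.pull_comp, ← C.pull_comp,
    p12_fst, p12_snd, C.act_apply, C.bc2]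
  have : fst X (Z.prod Y) = p13 X Z Y ≫ fst X Y := by simp
  rw [this, C.pull_comp, mul_assoc, C.mul_push]
  congr 1
  rw [C.pull_mul, ← C.pull_comp]
  ring_nf

lemma comp_mem_dec {d : C.CH (X.prod Z)} (hd : d ∈ dec C X Z) (w : C.CH (Z.prod Y)) :
    C.comp d w ∈ dec C X Y := by
  rw [dec] at hd
  induction hd using Submodule.span_induction with
  | mem z hz =>
    obtain ⟨x, y, rfl⟩ := hz
    rw [ext_comp']
    exact ext_mem_dec _ _
  | zero => rw [C.zero_comp]; exact Submodule.zero_mem _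
  | add a b _ _ ha hb => rw [C.add_comp]; exact Submodule.add_mem _ ha hb
  | smul c a _ ha => rw [C.smul_comp]; exact Submodule.smul_mem _ c ha

/-- If `c Δ - d` is smash-nilpotent for a sum `d` of exterior products then `Δ` is a sum of exterior
products. -/
lemma diag_mem_dec {ψ : C.CH (X.prod X)} (h : C.SmashNilpotent ψ) {c : ℚ} (hc : c ≠ 0)
    (hd : ψ - c • C.diagC X ∈ dec C X X) : C.diagC X ∈ dec C X X := by
  obtain ⟨n, hn⟩ := cpow_eq_zero h
  have key : ∀ m, cpow ψ m - c ^ m • C.diagC X ∈ dec C X X := by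
    intro m
    induction m with
    | zero => simp [cpow]
    | succ m ih =>
      have e : cpow ψ (m + 1) - c ^ (m + 1) • C.diagC X =
          C.comp (cpow ψ m - c ^ m • C.diagC X) ψ + c ^ m • (ψ - c • C.diagC X) := by
        have e1 : C.comp (cpow ψ m - c ^ m • C.diagC X) ψ =
            C.comp (cpow ψ m) ψ - c ^ m • ψ := by
          have e2 : cpow ψ m = (cpow ψ m - c ^ m • C.diagC X) + c ^ m • C.diagC X := by abel
          conv_rhs => rw [e2, C.add_comp, C.smul_comp, C.diagC_comp]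
          abel
        rw [e1, cpow, smul_sub, smul_smul, ← pow_succ]
        abel
      rw [e]
      exact Submodule.add_mem _ (comp_mem_dec ih ψ) (Submodule.smul_mem _ _ hd)
  have h1 := key n
  rw [hn, zero_sub] at h1
  have h2 := (Submodule.neg_mem_iff _).1 h1
  exact (Submodule.smul_mem_iff _ (pow_ne_zero n hc)).1 h2

end Pool.Agent.R905.BQ
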